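import Mathlib

namespace Pool.Agent.Results.MP_782c7c_an.TwoCircles

open Matrix

/-- The Pauli matrices: they satisfy the Clifford relations for `d = 3`. -/
def pauli : Fin 3 → Matrix (Fin 2) (Fin 2) ℂ :=
  ![!![0, 1; 1, 0], !![0, -Complex.I; Complex.I, 0], !![1, 0; 0, -1]]

/-- The Clifford spectrum of three `n × n` matrices, computed with the Pauli matrices. -/
def cliffordSpectrum {n : ℕ} (A : Fin 3 → Matrix (Fin n) (Fin n) ℂ) : Set (Fin 3 → ℝ) :=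
  {x | ¬ IsUnit (∑ j, Matrix.kronecker (A j - (x j : ℂ) • (1 : Matrix (Fin n) (Fin n) ℂ)) (pauli j))}

noncomputable def loc {ι : Type} [DecidableEq ι] (A : Fin 3 → Matrix ι ι ℂ) (x : Fin 3 → ℝ) :
    Matrix (ι × Fin 2) (ι × Fin 2) ℂ :=
  ∑ j, Matrix.kronecker (A j - (x j : ℂ) • (1 : Matrix ι ι ℂ)) (pauli j)

def Eqs (w t Z p q I a0 a1 b0 b1 c0 c1 d0 d1 : ℂ) : Prop :=
  -Z * a0 - t * a1 + p * c1 + I * q * d1 = 0 ∧ -w * a0 + Z * a1 + p * c0 - I * q * d0 = 0 ∧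
  -Z * b0 - t * b1 + q * d1 - I * p * c1 = 0 ∧ -w * b0 + Z * b1 + q * d0 + I * p * c0 = 0 ∧
  p * a1 - I * p * b1 + (20 - Z) * c0 - t * c1 = 0 ∧
  p * a0 + I * p * b0 - w * c0 - (20 - Z) * c1 = 0 ∧
  q * b1 + I * q * a1 + (5 - Z) * d0 - t * d1 = 0 ∧ q * b0 - I * q * a0 - w * d0 - (5 - Z) * d1 = 0

lemma red (α β c ρ w t I c0 c1 d0 d1 : ℂ) (hI : I ^ 2 + 1 = 0)
    (e0 : α * c0 - ρ * t * c1 + I * c * d0 = 0) (e1 : -ρ * w * c0 - α * c1 + I * c * d1 = 0)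
    (e2 : -I * c * c0 + β * d0 - ρ * t * d1 = 0) (e3 : -I * c * c1 - ρ * w * d0 - β * d1 = 0)
    (hG : (α * β + ρ ^ 2 * (w * t) - c ^ 2) ^ 2 + ρ ^ 2 * (w * t) * (α - β) ^ 2 ≠ 0) :
    c0 = 0 ∧ c1 = 0 ∧ d0 = 0 ∧ d1 = 0 := by
  set R := α * β + ρ ^ 2 * (w * t) - c ^ 2 with hR
  have f0 : R * c0 + ρ * t * (α - β) * c1 = 0 := by
    rw [hR]; linear_combination β * e0 - ρ * t * e1 - I * c * e2 - c ^ 2 * c0 * hI
  have f1 : -ρ * w * (α - β) * c0 + R * c1 = 0 := by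
    rw [hR]; linear_combination -ρ * w * e0 - β * e1 - I * c * e3 - c ^ 2 * c1 * hI
  have g0 : R * d0 - ρ * t * (α - β) * d1 = 0 := by
    rw [hR]; linear_combination α * e2 - ρ * t * e3 + I * c * e0 - c ^ 2 * d0 * hI
  have g1 : ρ * w * (α - β) * d0 + R * d1 = 0 := by
    rw [hR]; linear_combination -ρ * w * e2 - α * e3 + I * c * e1 - c ^ 2 * d1 * hI
  refine ⟨(mul_eq_zero.1 ?_).resolve_left hG, (mul_eq_zero.1 ?_).resolve_left hG,
    (mul_eq_zero.1 ?_).resolve_left hG, (mul_eq_zero.1 ?_).resolve_left hG⟩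
  · linear_combination R * f0 - ρ * t * (α - β) * f1
  · linear_combination ρ * w * (α - β) * f0 + R * f1
  · linear_combination R * g0 + ρ * t * (α - β) * g1
  · linear_combination -ρ * w * (α - β) * g0 + R * g1

lemma fwd (w t Z p q I a0 a1 b0 b1 c0 c1 d0 d1 α β ρ : ℂ) (hI : I ^ 2 + 1 = 0)
    (h : Eqs w t Z p q I a0 a1 b0 b1 c0 c1 d0 d1) (hρ : ρ = w * t + Z ^ 2)
    (hα : α = ρ * (20 - Z) - 2 * p ^ 2 * Z) (hβ : β = ρ * (5 - Z) - 2 * q ^ 2 * Z) (h0' : ρ ≠ 0)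
    (hG : (α * β + ρ ^ 2 * (w * t) - (2 * p * q * Z) ^ 2) ^ 2 +
      ρ ^ 2 * (w * t) * (α - β) ^ 2 ≠ 0) :
    a0 = 0 ∧ a1 = 0 ∧ b0 = 0 ∧ b1 = 0 ∧ c0 = 0 ∧ c1 = 0 ∧ d0 = 0 ∧ d1 = 0 := by
  obtain ⟨h0, h1, h2, h3, h4, h5, h6, h7⟩ := h
  obtain ⟨rfl, rfl, rfl, rfl⟩ := red α β (2 * p * q * Z) ρ w t I c0 c1 d0 d1 hI
    (by rw [hα, hρ]; linear_combination ((1)*Z^2 + (1)*w*t) * h4 + ((1)*w*p) * h0 + ((-1)*Z*p) * h1 + ((-1)*w*p*I) * h2 + ((1)*Z*p*I) * h3 + ((-1)*Z*p^2*c0 + (-1)*w*p^2*c1) * hI)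
    (by rw [hα, hρ]; linear_combination ((1)*Z^2 + (1)*w*t) * h5 + ((1)*Z*p) * h0 + ((1)*t*p) * h1 + ((1)*Z*p*I) * h2 + ((1)*t*p*I) * h3 + ((1)*Z*p^2*c1 + (-1)*t*p^2*c0) * hI)
    (by rw [hβ, hρ]; linear_combination ((1)*Z^2 + (1)*w*t) * h6 + ((1)*w*q) * h2 + ((-1)*Z*q) * h3 + ((1)*w*q*I) * h0 + ((-1)*Z*q*I) * h1 + ((-1)*Z*q^2*d0 + (-1)*w*q^2*d1) * hI)
    (by rw [hβ, hρ]; linear_combination ((1)*Z^2 + (1)*w*t) * h7 + ((1)*Z*q) * h2 + ((1)*t*q) * h3 + ((-1)*Z*q*I) * h0 + ((-1)*t*q*I) * h1 + ((1)*Z*q^2*d1 + (-1)*t*q^2*d0) * hI) hG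
  refine ⟨(mul_eq_zero.1 ?_).resolve_left h0', (mul_eq_zero.1 ?_).resolve_left h0',
    (mul_eq_zero.1 ?_).resolve_left h0', (mul_eq_zero.1 ?_).resolve_left h0', rfl, rfl, rfl, rfl⟩
  · rw [hρ]; linear_combination -Z * h0 - t * h1
  · rw [hρ]; linear_combination -w * h0 + Z * h1
  · rw [hρ]; linear_combination -Z * h2 - t * h3
  · rw [hρ]; linear_combination -w * h2 + Z * h3

lemma bwd (w t Z p q I α β ρ : ℂ) (hI : I ^ 2 + 1 = 0) (hρ : ρ = w * t + Z ^ 2)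
    (hα : α = ρ * (20 - Z) - 2 * p ^ 2 * Z) (hβ : β = ρ * (5 - Z) - 2 * q ^ 2 * Z)
    (h1 : α * β + ρ ^ 2 * (w * t) - (2 * p * q * Z) ^ 2 = 0) (h2 : w * (α - β) = 0) :
    ∃ a0 a1 b0 b1 c1 d0 d1, Eqs w t Z p q I a0 a1 b0 b1 (ρ * (I * (2 * p * q * Z))) c1 d0 d1 := by
  subst hα hβ hρ
  refine ⟨((20)*t*Z^2*q*I + (-1)*t*Z^3*q*I + (1)*w*Z^3*q*I + (20)*w*t^2*q*I + (-1)*w*t^2*Z*q*I + (1)*w^2*t*Z*q*I),
    ((-20)*Z^3*q*I + (1)*Z^4*q*I + (-20)*w*t*Z*q*I + (1)*w*t*Z^2*q*I + (1)*w^2*Z^2*q*I + (1)*w^3*t*q*I),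
    ((2)*t*Z*p^2*q + (2)*t*Z*p^2*q*I^2 + (-20)*t*Z^2*q + (1)*t*Z^3*q + (1)*w*Z^3*q + (-20)*w*t^2*q + (1)*w*t^2*Z*q + (1)*w^2*t*Z*q),
    ((-2)*Z^2*p^2*q + (-2)*Z^2*p^2*q*I^2 + (20)*Z^3*q + (-1)*Z^4*q + (20)*w*t*Z*q + (-1)*w*t*Z^2*q + (1)*w^2*Z^2*q + (1)*w^3*t*q), 0,
    (w * t + Z ^ 2) * -((w * t + Z ^ 2) * (20 - Z) - 2 * p ^ 2 * Z),
    (w * t + Z ^ 2) * ((w * t + Z ^ 2) * w), ?_, ?_, ?_, ?_, ?_, ?_, ?_, ?_⟩
  · linear_combination 0 * hI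
  · linear_combination 0 * hI
  · linear_combination 0 * hI
  · linear_combination 0 * hI
  · linear_combination ((2)*Z^2*p^3*q*I) * hI
  · linear_combination ((2)*t*Z*p^3*q*I) * hI
  · linear_combination ((-2)*Z^2*p^2*q^2 + (-20)*Z^3*q^2 + (1)*Z^4*q^2 + (-20)*w*t*Z*q^2 + (1)*w*t*Z^2*q^2 + (1)*w^2*Z^2*q^2 + (1)*w^3*t*q^2) * hI + (-1) * h1
  · linear_combination ((2)*t*Z*p^2*q^2 + (-20)*t*Z^2*q^2 + (1)*t*Z^3*q^2 + (-1)*w*Z^3*q^2 + (-20)*w*t^2*q^2 + (1)*w*t^2*Z*q^2 + (-1)*w^2*t*Z*q^2) * hI + (w * t + Z ^ 2) * h2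

noncomputable def A4 (p q : ℝ) : Fin 3 → Matrix (Fin 4) (Fin 4) ℂ :=
  ![!![0, 0, p, 0; 0, 0, 0, q; p, 0, 0, 0; 0, q, 0, 0],
    !![0, 0, 0, -q; 0, 0, p, 0; 0, p, 0, 0; -q, 0, 0, 0],
    !![-4, 0, 0, 0; 0, -4, 0, 0; 0, 0, 16, 0; 0, 0, 0, 1]]

lemma ker_iff (p q : ℝ) (x : Fin 3 → ℝ) (v : Fin 4 × Fin 2 → ℂ) : loc (A4 p q) x *ᵥ v = 0 ↔
    Eqs (x 0 + Complex.I * x 1) (x 0 - Complex.I * x 1) (x 2 + 4) p q Complex.I
      (v (0, 0)) (v (0, 1)) (v (1, 0)) (v (1, 1)) (v (2, 0)) (v (2, 1)) (v (3, 0)) (v (3, 1)) := by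
  rw [funext_iff, Eqs]
  simp only [Prod.forall, Fin.forall_fin_succ, IsEmpty.forall_iff, and_true, and_assoc]
  refine and_congr ?_ (and_congr ?_ (and_congr ?_ (and_congr ?_ (and_congr ?_ (and_congr ?_
    (and_congr ?_ ?_)))))) <;>
    (apply Eq.congr_left
     simp [loc, mulVec, dotProduct, Fintype.sum_prod_type, Fin.sum_univ_three, Fin.sum_univ_four,
       A4, pauli, Matrix.kronecker, Matrix.one_apply]
     ring)

lemma base_iff (p q : ℝ) (hp : p ^ 2 = 154) (hq : q ^ 2 = 53 / 2) (x : Fin 3 → ℝ) :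
    (loc (A4 p q) x).det = 0 ↔ (x 2 = 0 ∧ x 0 ^ 2 + x 1 ^ 2 = 52) ∨
      (x 0 = 0 ∧ x 1 = 0 ∧ (x 2 = 4 ∨ x 2 = -4)) := by
  have hI : Complex.I ^ 2 + 1 = 0 := by simp
  have hpc : (p : ℂ) ^ 2 = 154 := by exact_mod_cast hp
  have hqc : (q : ℂ) ^ 2 = 53 / 2 := by
    have := congrArg (fun r : ℝ => (r : ℂ)) hq
    push_cast at this
    exact this
  have hwt : ((x 0 : ℂ) + Complex.I * x 1) * (x 0 - Complex.I * x 1) =
      ((x 0 ^ 2 + x 1 ^ 2 : ℝ) : ℂ) := by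
    push_cast; linear_combination (-(x 1 : ℂ) ^ 2) * hI
  have hpq : (2 * p * q : ℂ) ≠ 0 := by
    have h1 : (p : ℂ) ≠ 0 := by intro h; rw [h] at hpc; norm_num at hpc
    have h2 : (q : ℂ) ≠ 0 := by intro h; rw [h] at hqc; norm_num at hqc
    exact mul_ne_zero (mul_ne_zero two_ne_zero h1) h2
  have mk : ∀ a0 a1 b0 b1 c0 c1 d0 d1 : ℂ, (a0 ≠ 0 ∨ c0 ≠ 0) →
      Eqs (x 0 + Complex.I * x 1) (x 0 - Complex.I * x 1) (x 2 + 4) p q Complex.I
        a0 a1 b0 b1 c0 c1 d0 d1 → (loc (A4 p q) x).det = 0 := by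
    intro a0 a1 b0 b1 c0 c1 d0 d1 h1 h2
    refine Matrix.exists_mulVec_eq_zero_iff.1
      ⟨fun z => !![a0, a1; b0, b1; c0, c1; d0, d1] z.1 z.2, fun h => ?_, (ker_iff _ _ _ _).2 ?_⟩
    · rcases h1 with h1 | h1
      · exact h1 (congrFun h (0, 0))
      · exact h1 (congrFun h (2, 0))
    · exact h2
  constructor
  · intro h
    obtain ⟨v, hv, h0⟩ := Matrix.exists_mulVec_eq_zero_iff.2 h
    rw [ker_iff] at h0
    set u := x 0 ^ 2 + x 1 ^ 2 with hu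
    set Z := x 2 + 4 with hZ
    have hu0 : 0 ≤ u := by positivity
    have uz : u = 0 → x 0 = 0 ∧ x 1 = 0 := fun h =>
      ⟨pow_eq_zero_iff two_ne_zero |>.1 (by nlinarith [sq_nonneg (x 0), sq_nonneg (x 1)]),
        pow_eq_zero_iff two_ne_zero |>.1 (by nlinarith [sq_nonneg (x 0), sq_nonneg (x 1)])⟩
    by_cases hρ : u + Z ^ 2 = 0
    · right
      have h1 : u = 0 := by nlinarith [sq_nonneg Z]
      have h2 : Z = 0 := pow_eq_zero_iff two_ne_zero |>.1 (by linarith)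
      exact ⟨(uz h1).1, (uz h1).2, Or.inr (by linarith)⟩
    set R := (u + Z ^ 2) * ((20 - Z) * (5 - Z) + u) - Z * (2600 - 361 * Z) with hR
    set J := 15 * (u + Z ^ 2) - 255 * Z with hJ
    have hG : R ^ 2 + u * J ^ 2 = 0 := by
      by_contra hG
      apply hv
      have hG' : (((u + Z ^ 2) ^ 2 * (R ^ 2 + u * J ^ 2) : ℝ) : ℂ) ≠ 0 := by
        exact_mod_cast mul_ne_zero (pow_ne_zero 2 hρ) hG
      obtain ⟨k0, k1, k2, k3, k4, k5, k6, k7⟩ := fwd _ _ _ _ _ _ _ _ _ _ _ _ _ _ _ _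
        ((u + Z ^ 2 : ℝ) : ℂ) hI h0 (by rw [hwt, hZ]; push_cast; ring) rfl rfl
        (by exact_mod_cast hρ) (by
          convert hG' using 1
          have e : (2 * p * q * ((x 2 : ℂ) + 4)) ^ 2 = 4 * 154 * (53 / 2) * (x 2 + 4) ^ 2 := by
            rw [← hpc, ← hqc]; ring
          rw [hwt, e, hpc, hqc, hR, hJ, hZ]
          push_cast
          ring)
      ext ⟨i, j⟩
      fin_cases i <;> fin_cases j
      exacts [k0, k1, k2, k3, k4, k5, k6, k7]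
    have hR0 : R = 0 := pow_eq_zero_iff two_ne_zero |>.1
      (by nlinarith [sq_nonneg R, mul_nonneg hu0 (sq_nonneg J)])
    have hJ0 : u * J ^ 2 = 0 := by rw [hR0] at hG; linarith
    rcases mul_eq_zero.1 hJ0 with h1 | h1
    · right
      have h2 : Z ≠ 0 := by rintro h2; apply hρ; rw [h1, h2]; norm_num
      have h3 : Z * ((Z - 8) * (Z ^ 2 - 17 * Z + 325)) = 0 := by
        rw [← hR0, hR, h1]; ring
      have h4 : Z ^ 2 - 17 * Z + 325 ≠ 0 := by nlinarith [sq_nonneg (Z - 17 / 2)]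
      have h5 := (mul_eq_zero.1 ((mul_eq_zero.1 h3).resolve_left h2)).resolve_right h4
      exact ⟨(uz h1).1, (uz h1).2, Or.inl (by linarith)⟩
    · left
      have h2 : J = 0 := pow_eq_zero_iff two_ne_zero |>.1 h1
      have h3 : u = 17 * Z - Z ^ 2 := by linarith
      have h4 : Z ≠ 0 := by rintro h4; apply hρ; rw [h3, h4]; norm_num
      have h5 : Z * (225 * (Z - 4)) = 0 := by rw [← hR0, hR, h3]; ring
      have h6 : Z = 4 := by linarith [(mul_eq_zero.1 h5).resolve_left h4]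
      refine ⟨by linarith, ?_⟩
      rw [h3, h6]; norm_num
  · have e : ∀ Z : ℂ, (2 * p * q * Z) ^ 2 = 4 * 154 * (53 / 2) * Z ^ 2 := by
      intro Z; rw [← hpc, ← hqc]; ring
    rintro (⟨h1, h2⟩ | ⟨h1, h2, h3 | h3⟩)
    · obtain ⟨a0, a1, b0, b1, c1, d0, d1, h⟩ := bwd (x 0 + Complex.I * x 1) (x 0 - Complex.I * x 1)
        (x 2 + 4) p q Complex.I _ _ 68 hI (by rw [hwt, h1, h2]; norm_num) rfl rfl
        (by rw [hwt, e, hpc, hqc, h1, h2]; norm_num) (by rw [hpc, hqc, h1]; norm_num)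
      refine mk _ _ _ _ _ _ _ _ (Or.inr ?_) h
      rw [h1]
      exact mul_ne_zero (by norm_num) (mul_ne_zero Complex.I_ne_zero (mul_ne_zero hpq (by norm_num)))
    · obtain ⟨a0, a1, b0, b1, c1, d0, d1, h⟩ := bwd (x 0 + Complex.I * x 1) (x 0 - Complex.I * x 1)
        (x 2 + 4) p q Complex.I _ _ 64 hI (by rw [h1, h2, h3]; norm_num) rfl rfl
        (by rw [e, hpc, hqc, h1, h2, h3]; norm_num) (by rw [h1, h2]; norm_num)
      refine mk _ _ _ _ _ _ _ _ (Or.inr ?_) h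
      rw [h3]
      exact mul_ne_zero (by norm_num) (mul_ne_zero Complex.I_ne_zero (mul_ne_zero hpq (by norm_num)))
    · refine mk 1 0 Complex.I 0 0 0 0 0 (Or.inl one_ne_zero) ?_
      rw [h1, h2, h3, Eqs]
      refine ⟨?_, ?_, ?_, ?_, ?_, ?_, ?_, ?_⟩ <;> simp
      · linear_combination (p : ℂ) * hI
      · ring

lemma cyc_iff {ι : Type} [Fintype ι] [DecidableEq ι] (A : Fin 3 → Matrix ι ι ℂ) (x : Fin 3 → ℝ) :
    (loc ![A 1 + (6 : ℂ) • 1, A 2, A 0] x).det = 0 ↔ (loc A ![x 2, x 0 - 6, x 1]).det = 0 := by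
  let g : Matrix (Fin 2) (Fin 2) ℂ :=
    !![1 + Complex.I, 1 + Complex.I; -1 + Complex.I, 1 - Complex.I]
  have g0 : g * pauli 0 = pauli 2 * g := by
    ext i j; fin_cases i <;> fin_cases j <;> simp [g, pauli, Complex.ext_iff]
  have g1 : g * pauli 1 = pauli 0 * g := by
    ext i j; fin_cases i <;> fin_cases j <;> simp [g, pauli, Complex.ext_iff]
  have g2 : g * pauli 2 = pauli 1 * g := by
    ext i j; fin_cases i <;> fin_cases j <;> simp [g, pauli, Complex.ext_iff]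
  have hg : (Matrix.kronecker (1 : Matrix ι ι ℂ) g).det ≠ 0 := by
    rw [Matrix.kronecker, det_kronecker]
    have : g.det ≠ 0 := by simp [g, det_fin_two, Complex.ext_iff]; norm_num
    simp [this]
  have e : Matrix.kronecker (1 : Matrix ι ι ℂ) g * loc A ![x 2, x 0 - 6, x 1] =
      loc ![A 1 + (6 : ℂ) • 1, A 2, A 0] x * Matrix.kronecker (1 : Matrix ι ι ℂ) g := by
    simp only [loc, Fin.sum_univ_three, Matrix.mul_add, Matrix.add_mul, Matrix.kronecker,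
      ← mul_kronecker_mul, Matrix.one_mul, Matrix.mul_one, g0, g1, g2]
    have : A 1 + (6 : ℂ) • (1 : Matrix ι ι ℂ) - (x 0 : ℂ) • 1 = A 1 - ((x 0 - 6 : ℝ) : ℂ) • 1 := by
      push_cast; module
    simp only [Matrix.cons_val_zero, Matrix.cons_val_one, Matrix.cons_val_two, Matrix.head_cons,
      Matrix.tail_cons, this]
    abel
  have e2 := congrArg det e
  rw [det_mul, det_mul, mul_comm] at e2
  rw [mul_right_cancel₀ hg e2]

lemma sum_det {ι κ : Type} [Fintype ι] [DecidableEq ι] [Fintype κ] [DecidableEq κ] {n : ℕ}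
    (e : ι ⊕ κ ≃ Fin n) (A : Fin 3 → Matrix ι ι ℂ) (B : Fin 3 → Matrix κ κ ℂ) (x : Fin 3 → ℝ) :
    (loc (fun j => Matrix.reindex e e (fromBlocks (A j) 0 0 (B j))) x).det =
      (loc A x).det * (loc B x).det := by
  rw [← det_fromBlocks_zero₂₁ (loc A x) 0 (loc B x), ← Matrix.det_reindex_self
    (((Equiv.sumProdDistrib ι κ (Fin 2)).symm).trans (e.prodCongr (Equiv.refl (Fin 2))))]
  congr 1
  ext ⟨i, s⟩ ⟨k, t⟩
  obtain ⟨i, rfl⟩ := e.surjective i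
  obtain ⟨k, rfl⟩ := e.surjective k
  rcases i with i | i <;> rcases k with k | k <;>
    simp [loc, Matrix.sum_apply, Matrix.kronecker, Matrix.one_apply]

lemma chart (S : Set (Fin 3 → ℝ)) (i j k : Fin 3) (hij : i ≠ j) (hik : i ≠ k) (hjk : j ≠ k)
    (c r ε : ℝ) (hr : 0 < r) (hε : ε ^ 2 = 1) (W : Set (Fin 3 → ℝ)) (hW : IsOpen W)
    (hS : ∀ x, (x ∈ S ∧ x ∈ W) ↔ x k = 0 ∧ (x i - c) ^ 2 + x j ^ 2 = r ^ 2) :
    IsOpen {y : S | y.1 ∈ W ∧ r + ε * (y.1 i - c) ≠ 0} ∧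
      Nonempty ({y : S | y.1 ∈ W ∧ r + ε * (y.1 i - c) ≠ 0} ≃ₜ ℝ) := by
  have cv : ∀ l, Continuous fun y : S => y.1 l := fun l =>
    (continuous_apply l).comp continuous_subtype_val
  have cd : Continuous fun y : S => r + ε * (y.1 i - c) :=
    continuous_const.add (continuous_const.mul ((cv i).sub continuous_const))
  constructor
  · exact (hW.preimage continuous_subtype_val).inter (isOpen_ne_fun cd continuous_const)
  let φ : ℝ → Fin 3 → ℝ := fun s l =>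
    if l = i then c + ε * (r * (1 - s ^ 2) / (1 + s ^ 2)) else if l = j then 2 * r * s / (1 + s ^ 2)
    else 0
  have φi : ∀ s, φ s i = c + ε * (r * (1 - s ^ 2) / (1 + s ^ 2)) := fun s => by simp [φ]
  have φj : ∀ s, φ s j = 2 * r * s / (1 + s ^ 2) := fun s => by simp [φ, hij.symm]
  have φk : ∀ s, φ s k = 0 := fun s => by simp [φ, hik.symm, hjk.symm]
  have φm : ∀ s, φ s ∈ S ∧ φ s ∈ W := by
    intro s
    rw [hS, φi, φj, φk, add_sub_cancel_left, mul_pow, hε]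
    refine ⟨rfl, ?_⟩
    field_simp
    ring
  have φd : ∀ s, r + ε * (φ s i - c) = 2 * r / (1 + s ^ 2) := by
    intro s
    rw [φi, add_sub_cancel_left, ← mul_assoc, ← sq, hε]
    field_simp
    ring
  have all : ∀ l : Fin 3, l = i ∨ l = j ∨ l = k := by
    revert hij hik hjk
    fin_cases i <;> fin_cases j <;> fin_cases k <;> decide
  refine ⟨{ toFun := fun y => y.1.1 j / (r + ε * (y.1.1 i - c))
            invFun := fun s => ⟨⟨φ s, (φm s).1⟩, (φm s).2, by rw [φd]; positivity⟩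
            left_inv := ?_, right_inv := ?_, continuous_toFun := ?_, continuous_invFun := ?_ }⟩
  · rintro ⟨⟨y, hy⟩, hyW, hy0⟩
    obtain ⟨h1, h2⟩ := (hS y).1 ⟨hy, hyW⟩
    simp only at hy0
    have h3 : y j ^ 2 = (r - ε * (y i - c)) * (r + ε * (y i - c)) := by
      linear_combination h2 + (y i - c) ^ 2 * hε
    have h4 : 1 + (y j / (r + ε * (y i - c))) ^ 2 = 2 * r / (r + ε * (y i - c)) := by
      rw [div_pow, h3]; field_simp; ring
    have h5 : 1 - (y j / (r + ε * (y i - c))) ^ 2 = 2 * (ε * (y i - c)) / (r + ε * (y i - c)) := by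
      rw [div_pow, h3]; field_simp; ring
    apply Subtype.ext
    apply Subtype.ext
    ext l
    simp only
    rcases all l with rfl | rfl | rfl
    · rw [φi, h4, h5]
      field_simp
      linear_combination (y l - c) * hε
    · rw [φj, h4]
      field_simp
    · rw [φk, h1]
  · intro s
    simp only
    rw [φd, φj]
    field_simp
  · exact Continuous.div ((cv j).comp continuous_subtype_val) (cd.comp continuous_subtype_val)
      fun y => y.2.2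
  · refine Continuous.subtype_mk (Continuous.subtype_mk ?_ _) _
    refine continuous_pi fun l => ?_
    have hpos : ∀ s : ℝ, 1 + s ^ 2 ≠ 0 := fun s => by positivity
    simp only [φ]
    split_ifs <;> fun_prop (disch := exact hpos)

lemma chart2 (S : Set (Fin 3 → ℝ)) (i j k : Fin 3) (hij : i ≠ j) (hik : i ≠ k) (hjk : j ≠ k)
    (c r : ℝ) (hr : 0 < r) (W : Set (Fin 3 → ℝ)) (hW : IsOpen W)
    (hS : ∀ x, (x ∈ S ∧ x ∈ W) ↔ x k = 0 ∧ (x i - c) ^ 2 + x j ^ 2 = r ^ 2) (y : S)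
    (hy : y.1 ∈ W) : ∃ U : Set S, IsOpen U ∧ y ∈ U ∧ Nonempty (U ≃ₜ ℝ) := by
  by_cases h : r + 1 * (y.1 i - c) = 0
  · obtain ⟨h1, h2⟩ := chart S i j k hij hik hjk c r (-1) hr (by norm_num) W hW hS
    exact ⟨_, h1, ⟨hy, by linarith⟩, h2⟩
  · obtain ⟨h1, h2⟩ := chart S i j k hij hik hjk c r 1 hr (by norm_num) W hW hS
    exact ⟨_, h1, ⟨hy, h⟩, h2⟩

theorem result : ∃ A : Fin 3 → Matrix (Fin 8) (Fin 8) ℂ, (∀ j, (A j).IsHermitian) ∧
    (cliffordSpectrum A).Nonempty ∧ T2Space (cliffordSpectrum A) ∧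
    ∀ y : cliffordSpectrum A, ∃ U : Set (cliffordSpectrum A),
      IsOpen U ∧ y ∈ U ∧ Nonempty (U ≃ₜ ℝ) := by
  have hp : √154 ^ 2 = (154 : ℝ) := Real.sq_sqrt (by norm_num)
  have hq : √(53 / 2) ^ 2 = (53 / 2 : ℝ) := Real.sq_sqrt (by norm_num)
  have hr : √52 ^ 2 = (52 : ℝ) := Real.sq_sqrt (by norm_num)
  set A := A4 √154 √(53 / 2) with hA
  have hH : ∀ j, (A j).IsHermitian := by
    intro j
    fin_cases j <;> (ext a b; fin_cases a <;> fin_cases b <;> simp [hA, A4])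
  let B : Fin 3 → Matrix (Fin 4) (Fin 4) ℂ := ![A 1 + (6 : ℂ) • 1, A 2, A 0]
  let e : Fin 4 ⊕ Fin 4 ≃ Fin 8 := finSumFinEquiv
  have hS : ∀ x, x ∈ cliffordSpectrum (fun j => Matrix.reindex e e (fromBlocks (A j) 0 0 (B j))) ↔
      (x 2 = 0 ∧ x 0 ^ 2 + x 1 ^ 2 = 52) ∨ (x 1 = 0 ∧ (x 0 - 6) ^ 2 + x 2 ^ 2 = 52) := by
    intro x
    change ¬ IsUnit (loc _ x) ↔ _
    rw [Matrix.isUnit_iff_isUnit_det, isUnit_iff_ne_zero, not_not, sum_det, mul_eq_zero, cyc_iff,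
      base_iff _ _ hp hq, base_iff _ _ hp hq]
    simp only [Matrix.cons_val_zero, Matrix.cons_val_one, Matrix.cons_val_two, Matrix.head_cons,
      Matrix.tail_cons]
    constructor
    · rintro ((h | ⟨h1, h2, h3 | h3⟩) | (⟨h1, h2⟩ | ⟨h1, h2, h3 | h3⟩))
      · exact Or.inl h
      · exact Or.inr ⟨h2, by rw [h1, h3]; norm_num⟩
      · exact Or.inr ⟨h2, by rw [h1, h3]; norm_num⟩
      · exact Or.inr ⟨h1, by linarith⟩
      · exact Or.inl ⟨h1, by rw [show x 0 = 6 by linarith, h3]; norm_num⟩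
      · exact Or.inl ⟨h1, by rw [show x 0 = 6 by linarith, h3]; norm_num⟩
    · rintro (h | ⟨h1, h2⟩)
      · exact Or.inl (Or.inl h)
      · exact Or.inr (Or.inl ⟨h1, by linarith⟩)
  have disj : ∀ x : Fin 3 → ℝ, (x 2 = 0 ∧ x 0 ^ 2 + x 1 ^ 2 = 52) →
      ¬ (x 1 = 0 ∧ (x 0 - 6) ^ 2 + x 2 ^ 2 = 52) := by
    rintro x ⟨h1, h2⟩ ⟨h3, h4⟩
    rw [h3] at h2
    rw [h1] at h4
    have : x 0 = 3 := by linarith
    rw [this] at h2
    norm_num at h2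
  refine ⟨fun j => Matrix.reindex e e (fromBlocks (A j) 0 0 (B j)), ?_, ?_, inferInstance, ?_⟩
  · intro j
    refine IsHermitian.submatrix (IsHermitian.fromBlocks (hH j) (by simp) ?_) _
    fin_cases j
    · exact (hH 1).add (by simp [IsHermitian])
    · exact hH 2
    · exact hH 0
  · exact ⟨![6, 4, 0], (hS _).2 (Or.inl (by simp; norm_num))⟩
  · intro y
    rcases (hS y.1).1 y.2 with h | h
    · refine chart2 _ 0 1 2 (by decide) (by decide) (by decide) 0 √52 (by positivity)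
        {x | ¬ (x 1 = 0 ∧ (x 0 - 6) ^ 2 + x 2 ^ 2 = 52)} ?_ ?_ y (disj _ h)
      · exact ((isClosed_eq (by fun_prop) continuous_const).inter
          (isClosed_eq (by fun_prop) continuous_const)).isOpen_compl
      · intro x
        rw [hS, hr, sub_zero]
        exact ⟨fun h => h.1.resolve_right h.2, fun h => ⟨Or.inl h, disj _ h⟩⟩
    · refine chart2 _ 0 2 1 (by decide) (by decide) (by decide) 6 √52 (by positivity)
        {x | ¬ (x 2 = 0 ∧ x 0 ^ 2 + x 1 ^ 2 = 52)} ?_ ?_ y (fun h' => disj _ h' h)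
      · exact ((isClosed_eq (by fun_prop) continuous_const).inter
          (isClosed_eq (by fun_prop) continuous_const)).isOpen_compl
      · intro x
        rw [hS, hr]
        exact ⟨fun h => h.1.resolve_left h.2, fun h => ⟨Or.inr h, fun h' => disj _ h' h⟩⟩

end Pool.Agent.Results.MP_782c7c_an.TwoCircles
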